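import Mathlib
import Pool.Agent.Helper12.BCM.AFinal
import Pool.Agent.Helper12.BCM.TFinal
import Pool.Agent.Helper12.BCM.Concrete

/-!
# Bounded Cohen-Macaulay type does not descend from the completion

We construct a two-dimensional Cohen-Macaulay local domain `R` whose completion has bounded
Cohen-Macaulay type while `R` does not.

The completion of the example is `T = V⟦u⟧ ×_V V⟦v⟧` with `V = ℚ⟦x⟧`, that is `ℚ⟦x,u,v⟧/(uv)`.  The
ring `R` is the subring of `T` of all fractions of elements of `ℚ[x][y][t]`, where `y` and `t` are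
sent to `ν - ω` and `τ`, with `ν, τ` the coordinates of the two branches of a nodal cubic at its
node and `ω ∈ x ℚ⟦x⟧` transcendental over `ℚ[x]`.
-/

set_option autoImplicit false

universe u

namespace Pool.Agent.Results.MP_8741c9_al.BoundedCMDescentFails

open IsLocalRing Filter Pool.Agent.Helper12.BCM
open scoped ENNReal

/-- The depth of a module `M` over a local ring `R`: the supremum of the lengths of the
`M`-regular sequences in the maximal ideal. -/
noncomputable def depth (R : Type u) [CommRing R] [IsLocalRing R] (M : Type u) [AddCommGroup M]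
    [Module R M] : ℕ∞ :=
  ⨆ rs : {rs : List R // (∀ r ∈ rs, r ∈ maximalIdeal R) ∧ RingTheory.Sequence.IsRegular M rs},
    (rs.1.length : ℕ∞)

/-- Maximal Cohen-Macaulay modules: finitely generated with `depth M = dim R`. -/
def IsMCM (R : Type u) [CommRing R] [IsLocalRing R] (M : Type u) [AddCommGroup M]
    [Module R M] : Prop :=
  Module.Finite R M ∧ ((depth R M : ℕ∞) : WithBot ℕ∞) = ringKrullDim R

/-- The Krull dimension of `R` as a natural number (it is finite for Noetherian local rings). -/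
noncomputable def dimNat (R : Type u) [CommRing R] : ℕ := ((ringKrullDim R).unbotD 0).toNat

/-- The multiplicity `e(M) = lim d! · length(M / m^n M) / n^d`, where `d = dim R`.  (The limit
exists for finitely generated `M`; we write it as a limit superior.) -/
noncomputable def samuelMultiplicity (R : Type u) [CommRing R] [IsLocalRing R] (M : Type u)
    [AddCommGroup M] [Module R M] : ℝ≥0∞ :=
  limsup (fun n : ℕ =>
    ((dimNat R).factorial : ℝ≥0∞) *
      ((Module.length R (M ⧸ (maximalIdeal R ^ n • (⊤ : Submodule R M))) : ℕ∞) : ℝ≥0∞) /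
      (n : ℝ≥0∞) ^ (dimNat R)) atTop

/-- Indecomposable modules: nonzero, and in every decomposition `M = P ⊕ Q` one of `P, Q` is
zero. -/
def IsIndecomposable (R : Type u) [CommRing R] (M : Type u) [AddCommGroup M]
    [Module R M] : Prop :=
  Nontrivial M ∧ ∀ P Q : Submodule R M, IsCompl P Q → P = ⊥ ∨ Q = ⊥

/-- Bounded Cohen-Macaulay type: the multiplicities of the indecomposable maximal Cohen-Macaulay
modules are bounded. -/
def HasBoundedCMType (R : Type u) [CommRing R] [IsLocalRing R] : Prop :=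
  ∃ B : ℕ, ∀ (M : Type u) [AddCommGroup M] [Module R M],
    IsMCM R M → IsIndecomposable R M → samuelMultiplicity R M ≤ B

lemma dimNat_eq {R : Type u} [CommRing R] (h : ringKrullDim R = 2) : dimNat R = 2 := by
  rw [dimNat, h]; rfl

lemma isMCM_of_reg2 {R : Type u} [CommRing R] [IsLocalRing R] [IsNoetherianRing R]
    (hdim : ringKrullDim R = 2) {M : Type u} [AddCommGroup M] [Module R M] [Module.Finite R M]
    [Nontrivial M] {a b : R} (ha : a ∈ maximalIdeal R) (hb : b ∈ maximalIdeal R)
    (hab : Reg2 M a b) : IsMCM R M := by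
  refine ⟨inferInstance, ?_⟩
  rw [hdim]
  have hreg := (isRegular_pair_iff ha hb).mpr hab
  have h1 : depth R M = 2 := by
    apply le_antisymm
    · refine iSup_le ?_
      rintro ⟨rs, hrs, hr⟩
      have h1 := Module.supportDim_add_length_eq_supportDim_of_isRegular (R := R) (M := M) rs hr
      have hntq : Nontrivial (M ⧸ (Ideal.ofList rs) • (⊤ : Submodule R M)) :=
        hr.quot_ofList_smul_nontrivial ⊤
      have h2 : (0 : WithBot ℕ∞) ≤
          Module.supportDim R (M ⧸ (Ideal.ofList rs) • (⊤ : Submodule R M)) := by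
        have := Module.supportDim_ne_bot_of_nontrivial (R := R)
          (M := (M ⧸ (Ideal.ofList rs) • (⊤ : Submodule R M)))
        obtain ⟨c, hc⟩ := WithBot.ne_bot_iff_exists.mp this
        rw [← hc]
        exact WithBot.coe_le_coe.mpr (zero_le (a := c))
      have h3 : ((rs.length : ℕ∞) : WithBot ℕ∞) ≤ 2 := by
        calc ((rs.length : ℕ∞) : WithBot ℕ∞) = 0 + ((rs.length : ℕ∞) : WithBot ℕ∞) := by
              rw [zero_add]
          _ ≤ Module.supportDim R (M ⧸ (Ideal.ofList rs) • (⊤ : Submodule R M)) +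
              ((rs.length : ℕ∞) : WithBot ℕ∞) := by gcongr
          _ = Module.supportDim R M := h1
          _ ≤ ringKrullDim R := Module.supportDim_le_ringKrullDim R M
          _ = 2 := hdim
      exact WithBot.coe_le_coe.mp h3
    · refine le_iSup_of_le ⟨[a, b], ?_, hreg⟩ ?_
      · intro r hr
        simp only [List.mem_cons, List.not_mem_nil, or_false] at hr
        rcases hr with rfl | rfl <;> assumption
      · exact le_rfl
  rw [h1]; rfl

lemma reg2_of_isMCM {R : Type u} [CommRing R] [IsLocalRing R]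
    (hdim : ringKrullDim R = 2) {M : Type u} [AddCommGroup M] [Module R M]
    (h : IsMCM R M) : ∃ a ∈ maximalIdeal R, ∃ b ∈ maximalIdeal R, Reg2 M a b := by
  have h1 : depth R M = 2 := by
    have := h.2
    rw [hdim] at this
    exact WithBot.coe_injective this
  have h2 : ∃ rs : {rs : List R // (∀ r ∈ rs, r ∈ maximalIdeal R) ∧
      RingTheory.Sequence.IsRegular M rs}, 2 ≤ rs.1.length := by
    by_contra hcon
    push Not at hcon
    have h3 : depth R M ≤ 1 := by
      refine iSup_le fun rs => ?_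
      have := hcon rs
      have h4 : rs.1.length ≤ 1 := by omega
      exact_mod_cast h4
    rw [h1] at h3
    exact absurd h3 (by decide)
  obtain ⟨⟨rs, hmem, hreg⟩, hlen⟩ := h2
  match rs, hmem, hreg, hlen with
  | [], _, _, hlen => simp at hlen
  | [_], _, _, hlen => simp at hlen
  | a :: b :: tl, hmem, hreg, _ =>
    refine ⟨a, hmem a (by simp), b, hmem b (by simp), ?_⟩
    rw [← isWeaklyRegular_pair_iff]
    have h4 := hreg.toIsWeaklyRegular
    rw [RingTheory.Sequence.isWeaklyRegular_cons_iff,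
      RingTheory.Sequence.isWeaklyRegular_cons_iff] at h4
    rw [RingTheory.Sequence.isWeaklyRegular_cons_iff,
      RingTheory.Sequence.isWeaklyRegular_cons_iff]
    exact ⟨h4.1, h4.2.1, RingTheory.Sequence.IsWeaklyRegular.nil _ _⟩

lemma multiplicity_le {R : Type u} [CommRing R] [IsLocalRing R]
    (hdim : ringKrullDim R = 2) {M : Type u} [AddCommGroup M] [Module R M] (ℓ : ℕ)
    (h : ∀ n : ℕ, hs R M n ≤ n * (n * (2 * (ℓ : ℕ∞)))) :
    samuelMultiplicity R M ≤ ((4 * ℓ : ℕ) : ℝ≥0∞) := by
  rw [samuelMultiplicity, dimNat_eq hdim]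
  refine limsup_le_of_le (by isBoundedDefault) (Eventually.of_forall fun n => ?_)
  apply ENNReal.div_le_of_le_mul
  have h1 : ((hs R M n : ℕ∞) : ℝ≥0∞) ≤ (n : ℝ≥0∞) * (n * (2 * (ℓ : ℝ≥0∞))) := by
    have := ENat.toENNReal_le.mpr (h n)
    simpa using this
  calc ((2 : ℕ).factorial : ℝ≥0∞) *
        ((Module.length R (M ⧸ (maximalIdeal R ^ n • (⊤ : Submodule R M))) : ℕ∞) : ℝ≥0∞)
      ≤ 2 * ((n : ℝ≥0∞) * (n * (2 * (ℓ : ℝ≥0∞)))) := by
        have h2 : ((2 : ℕ).factorial : ℝ≥0∞) = 2 := by norm_num [Nat.factorial]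
        rw [h2]
        exact mul_le_mul_right h1 2
    _ = ((4 * ℓ : ℕ) : ℝ≥0∞) * (n : ℝ≥0∞) ^ 2 := by
        push_cast
        ring

lemma le_multiplicity {R : Type u} [CommRing R] [IsLocalRing R]
    (hdim : ringKrullDim R = 2) {M : Type u} [AddCommGroup M] [Module R M] (B : ℕ)
    (h : ∀ n : ℕ, n * (n * (((8 * B : ℕ)) : ℕ∞)) ≤ hs R M (4 * n)) :
    (B : ℝ≥0∞) ≤ samuelMultiplicity R M := by
  rw [samuelMultiplicity, dimNat_eq hdim]
  refine le_limsup_of_frequently_le' ?_
  rw [Filter.frequently_atTop]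
  intro N
  refine ⟨4 * (N + 1), by omega, ?_⟩
  rw [ENNReal.le_div_iff_mul_le]
  · have h1 : (((N + 1 : ℕ) : ℕ∞) : ℝ≥0∞) * (((N + 1 : ℕ) : ℕ∞) * (((8 * B : ℕ) : ℕ∞) : ℝ≥0∞)) ≤
        ((hs R M (4 * (N + 1)) : ℕ∞) : ℝ≥0∞) := by
      have := ENat.toENNReal_le.mpr (h (N + 1))
      simpa using this
    have h2 : ((2 : ℕ).factorial : ℝ≥0∞) = 2 := by norm_num [Nat.factorial]
    rw [h2]
    refine le_trans ?_ (mul_le_mul_right h1 2)
    simp only [ENat.toENNReal_coe]
    push_cast
    apply le_of_eq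
    ring
  · left
    simp
  · left
    exact ENNReal.pow_ne_top (ENNReal.natCast_ne_top _)

/-- The completion of the example has bounded Cohen-Macaulay type. -/
lemma bounded_of_equiv {S : Type} [CommRing S] [IsLocalRing S]
    (F : S ≃+* TR (PowerSeries ℚ)) : HasBoundedCMType S := by
  obtain ⟨a, ha, b, hb, hlen⟩ := exists_param F
  obtain ⟨ℓ, hℓ⟩ := ENat.ne_top_iff_exists.mp hlen
  have hdim : ringKrullDim S = 2 := by
    rw [ringKrullDim_eq_of_ringEquiv F]; exact ringKrullDim_TR
  refine ⟨4 * ℓ, fun M _ _ hM hind => ?_⟩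
  obtain ⟨c, hc, d, hd, hcd⟩ := reg2_of_isMCM hdim hM
  have hfin : Module.Finite S M := hM.1
  obtain ⟨p, q, hpq⟩ := two_gen_S F hc hd hcd hind.2
  refine multiplicity_le hdim ℓ fun n => ?_
  have := hs_le ha hb p q hpq n
  rwa [← hℓ] at this

/-- **Bounded Cohen-Macaulay type does not descend from the completion.**  There is a
Cohen-Macaulay local ring `R` (a two-dimensional domain) whose completion has bounded
Cohen-Macaulay type while `R` does not have bounded Cohen-Macaulay type. -/
theorem result : ∃ (R : Type) (_ : CommRing R) (_ : IsLocalRing R) (_ : IsNoetherianRing R),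
    IsDomain R ∧ ringKrullDim R = 2 ∧ IsMCM R R ∧
    HasBoundedCMType (AdicCompletion (maximalIdeal R) R) ∧ ¬ HasBoundedCMType R := by
  refine ⟨AR (Polynomial ℚ) (PowerSeries ℚ), inferInstance, inferInstance, inferInstance,
    inferInstance, ringKrullDim_AR, ?_, ?_, ?_⟩
  · exact isMCM_of_reg2 ringKrullDim_AR xA_mem_max yA_mem_max reg2_AR
  · obtain ⟨F⟩ := exists_equiv_T (O := Polynomial ℚ) (V := PowerSeries ℚ)
    exact bounded_of_equiv F
  · rintro ⟨B, hB⟩
    have h1 : IsMCM (AR (Polynomial ℚ) (PowerSeries ℚ))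
        (MM (Polynomial ℚ) (PowerSeries ℚ) (8 * B + 7)) :=
      isMCM_of_reg2 ringKrullDim_AR xA_mem_max yA_mem_max (reg2_MM _)
    have h2 : IsIndecomposable (AR (Polynomial ℚ) (PowerSeries ℚ))
        (MM (Polynomial ℚ) (PowerSeries ℚ) (8 * B + 7)) :=
      ⟨inferInstance, fun P Q h => indecomposable_MM (by omega) P Q h⟩
    have h3 := hB _ h1 h2
    have h4 : ((B + 1 : ℕ) : ℝ≥0∞) ≤ samuelMultiplicity (AR (Polynomial ℚ) (PowerSeries ℚ))
        (MM (Polynomial ℚ) (PowerSeries ℚ) (8 * B + 7)) := by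
      refine le_multiplicity ringKrullDim_AR (B + 1) fun n => ?_
      have := hs_MM_ge (O := Polynomial ℚ) (V := PowerSeries ℚ) (8 * B + 7) n
      refine le_trans (le_of_eq ?_) this
      rw [show 8 * (B + 1) = 8 * B + 7 + 1 by ring]
    have h5 := h4.trans h3
    have h6 : B + 1 ≤ B := by exact_mod_cast h5
    omega

end Pool.Agent.Results.MP_8741c9_al.BoundedCMDescentFails
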